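import Pool.Agent.helper24_UT.Ch14
import Pool.Agent.helper24_UT.Gss
import Pool.Agent.TH894.SM0

set_option autoImplicit false

/-!
# Prime pairs `N² + k + 1`, `(N + 1)² - k` for almost all `N` in intervals of length `√m`

Let `A` be fixed and let `m` be large, `m ≤ y ^ 2`, `y ≤ m`. For all but at most `y / (log m) ^ A` of the integers `N`,
`m < N ≤ m + y`, the pairs of primes with the sum `S = 2 N² + 2 N + 2 = (N² + k + 1) + ((N + 1)² - k)` are counted by the formula of Hardy and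
Littlewood in every interval and in mean square over all residue classes to ALL moduli `q ≤ m ^ 2 exp (- B (log log m) ^ 2)`, with an arbitrary
power of the logarithm saved. In particular there is such a pair with `0 ≤ k ≤ m² / (log m) ^ A`.

Proof. The values of the quadratic polynomial at an interval of length `y ≥ √m` near `m` have nearly minimal additive energy in their
window of length `y m ≥ (m ²) ^ (3/4)`; the correlations of the primes minus their sieve model along such families are bounded by the mean squares of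
short exponential sums over primes (`Pool.Agent.helper24_UT.Ch.t_R20`, the method of Mikawa) for all twists with rational
numbers of small denominators; the large sieve gives all classes to all moduli.

Definitions used from `Pool.Agent.H560R3.GB` (starting files): `C₂`: the twin prime constant
`∏_{p > 2} (1 - 1 / (p - 1) ^ 2)`; `sing n`: the singular series `2 C₂ ∏_{p ∣ n, p > 2} (p - 1) / (p - 2)`.
-/

namespace Pool.Agent.Results.MP_e94e4b_nt.AlmostAllInShortIntervals

open Finset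
open Pool.Agent.H560R3.GB (C₂ sing)

/-- the sum `2 N² + 2 N + 2` of `N² + k + 1` and `(N + 1)² - k` -/
def S (N : ℕ) : ℕ := 2 * N ^ 2 + 2 * N + 2

/-- the number of the primes `p ≤ y` with `p ≡ r (mod q)` for which `n - p` is a prime (for `r < q`) -/
def count (n q r y : ℕ) : ℕ := ((Icc 1 y).filter (fun p => p % q = r ∧ p.Prime ∧ p < n ∧ (n - p).Prime)).card

/-- `∑_{2 ≤ t ≤ y, t ≤ n - 2} 1 / (log t log (n - t))` -/
noncomputable def logSum (n y : ℕ) : ℝ := ∑ t ∈ Icc 2 (min y (n - 2)), 1 / (Real.log t * Real.log ((n - t : ℕ) : ℝ))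

/-- the residues `r` modulo `q` for which `r` and `n - r` are coprime to `q` -/
def residues (n q : ℕ) : Finset ℕ := (range q).filter (fun r : ℕ => r.Coprime q ∧ Int.gcd ((n : ℤ) - r) q = 1)

/-- (1) for all `Q ≤ m ^ 2 exp (- B (log log m) ^ 2)` and all choices of `y q r ≤ S N` the sum, over all moduli `q ≤ Q` and all residues `r` of
`residues (S N) q`, of the squares of `count - (𝔖 / φ_S(q)) logSum` is at most `m ^ 4 / (log m) ^ A`; (2) every interval `(u, v]`
in `[0, S N]` with `v - u ≥ m ^ 2 / (log m) ^ A` contains a prime `p` for which `S N - p` is a prime; (3) there is a `k`,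
`0 ≤ k ≤ m ^ 2 / (log m) ^ A`, for which `N ^ 2 + k + 1` and `(N + 1) ^ 2 - k` are prime. -/
def Good (A B m N : ℕ) : Prop :=
  (∀ Q : ℕ, (Q : ℝ) ≤ m ^ 2 * Real.exp (-(B * Real.log (Real.log m) ^ 2)) → ∀ y : ℕ → ℕ → ℕ, (∀ q r, y q r ≤ S N) →
    ∑ q ∈ Icc 1 Q, ∑ r ∈ residues (S N) q,
      ((count (S N) q r (y q r) : ℝ) - sing (S N) / (residues (S N) q).card * logSum (S N) (y q r)) ^ 2 ≤
        (m : ℝ) ^ 4 / (Real.log m) ^ A) ∧
  (∀ u v : ℕ, v ≤ S N → (m : ℝ) ^ 2 ≤ ((v : ℝ) - u) * Real.log m ^ A → ∃ p, u < p ∧ p ≤ v ∧ p.Prime ∧ (S N - p).Prime) ∧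
  (∃ k : ℕ, (k : ℝ) ≤ m ^ 2 / Real.log m ^ A ∧ (N ^ 2 + k + 1).Prime ∧ ((N + 1) ^ 2 - k).Prime)

theorem phi_eq (n q : ℕ) :
    Pool.Agent.helper24_UT.phf Pool.Agent.helper24_UT.sG (Pool.Agent.helper24_UT.hG n) q = (residues n q).card := by
  classical
  unfold Pool.Agent.helper24_UT.phf residues
  congr 1
  apply filter_congr
  intro t _
  rw [Fin.forall_fin_two]
  have e0 : Pool.Agent.helper24_UT.sG 0 * (t : ℤ) + Pool.Agent.helper24_UT.hG n 0 = (t : ℤ) := by
    simp [Pool.Agent.helper24_UT.sG, Pool.Agent.helper24_UT.hG]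
  have e1 : Pool.Agent.helper24_UT.sG 1 * (t : ℤ) + Pool.Agent.helper24_UT.hG n 1 = (n : ℤ) - t := by
    simp [Pool.Agent.helper24_UT.sG, Pool.Agent.helper24_UT.hG]
    ring
  rw [e0, e1, Int.gcd_natCast_natCast]

lemma C₂_pos : 0 < C₂ := by
  obtain ⟨c, hc, hS⟩ := Pool.Agent.helper24_UT.Slb.main 2
  have h1 := (hS Pool.Agent.helper24_UT.sG (Pool.Agent.helper24_UT.hG 2) (by
    intro i
    fin_cases i
    · exact Or.inl rfl
    · exact Or.inr rfl) (by
    intro i j hij
    fin_cases i <;> fin_cases j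
    · exact absurd rfl hij
    · simp [Pool.Agent.helper24_UT.sG, Pool.Agent.helper24_UT.hG]
    · simp [Pool.Agent.helper24_UT.sG, Pool.Agent.helper24_UT.hG]
    · exact absurd rfl hij)).2
  have h2 : c ≤ Pool.Agent.helper24_UT.sers Pool.Agent.helper24_UT.sG (Pool.Agent.helper24_UT.hG 2) := by
    apply h1
    intro p hp
    by_cases hd : p ∣ 2
    · rw [Pool.Agent.helper24_UT.Gss.nuf_dvd hp hd]
      exact hp.one_lt
    · rw [Pool.Agent.helper24_UT.Gss.nuf_ndvd hp hd]
      have h3 : p ≠ 2 := fun h => hd (h ▸ dvd_rfl)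
      have := hp.two_le
      omega
  rw [Pool.Agent.helper24_UT.Gss.main 2 le_rfl dvd_rfl] at h2
  have h4 := (Pool.Agent.TH894.SM.sing_tot 2 (by norm_num) dvd_rfl)
  have h5 : sing 2 = 2 * C₂ := by
    unfold sing
    have : (2 : ℕ).primeFactors.filter (fun p => 2 < p) = ∅ := by
      rw [Nat.Prime.primeFactors Nat.prime_two]
      rfl
    rw [this, prod_empty, mul_one]
  linarith

/-- large numbers `m` -/
lemma large (A B : ℕ) (L : ℝ) : ∃ m₁ : ℕ, ∀ m : ℕ, m₁ ≤ m → L ≤ Real.log m ∧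
    1 ≤ (m : ℝ) * Real.exp (-(B * Real.log (Real.log m) ^ 2)) ∧ Real.log 3 ≤ Real.log (Real.log m) ∧
    100 * Real.log m ^ A ≤ m := by
  have hlog : Filter.Tendsto (fun N : ℕ => Real.log (N : ℝ)) Filter.atTop Filter.atTop :=
    Real.tendsto_log_atTop.comp tendsto_natCast_atTop_atTop
  have h1 : ∀ᶠ N : ℕ in Filter.atTop, max L 3 ≤ Real.log N := hlog.eventually_ge_atTop _
  have h3 : ∀ᶠ x : ℝ in Filter.atTop, ‖Real.log x ^ 2‖ ≤ 1 / (B + 1 : ℝ) * ‖x‖ :=
    (Real.isLittleO_pow_log_id_atTop (n := 2)).bound (by positivity)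
  have h3' := hlog.eventually h3
  have h2 : ∀ᶠ x : ℝ in Filter.atTop, ‖Real.log x ^ A‖ ≤ 1 / 100 * ‖x‖ :=
    (Real.isLittleO_pow_log_id_atTop (n := A)).bound (by positivity)
  have h2' := (tendsto_natCast_atTop_atTop (R := ℝ)).eventually h2
  obtain ⟨N₁, hN₁⟩ := Filter.eventually_atTop.1 (h1.and (h2'.and h3'))
  refine ⟨max N₁ 1, fun N hN => ?_⟩
  obtain ⟨g1, g2, g3⟩ := hN₁ N ((le_max_left _ _).trans hN)
  have hNpos : (0 : ℝ) < N := by exact_mod_cast (le_max_right _ _).trans hN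
  have hl1 : 3 ≤ Real.log N := (le_max_right _ _).trans g1
  refine ⟨(le_max_left _ _).trans g1, ?_, Real.log_le_log (by norm_num) hl1, ?_⟩
  swap
  · rw [Real.norm_eq_abs, Real.norm_eq_abs, abs_of_pos hNpos] at g2
    have g4 := (le_abs_self _).trans g2
    linarith
  rw [Real.norm_eq_abs, Real.norm_eq_abs, abs_of_pos (by linarith : (0 : ℝ) < Real.log N)] at g3
  have g4 := (le_abs_self _).trans g3
  have hB : (0 : ℝ) ≤ B := Nat.cast_nonneg _
  rw [div_mul_eq_mul_div, one_mul, le_div_iff₀ (by positivity)] at g4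
  have g5 : B * Real.log (Real.log N) ^ 2 ≤ Real.log N := by nlinarith [sq_nonneg (Real.log (Real.log N))]
  calc (1 : ℝ) = N * Real.exp (-Real.log N) := by rw [Real.exp_neg, Real.exp_log hNpos, mul_inv_cancel₀ hNpos.ne']
    _ ≤ _ := by
      apply mul_le_mul_of_nonneg_left _ hNpos.le
      apply Real.exp_le_exp.2
      linarith

/-- the sum over an interval -/
lemma logSum_diff (n u v : ℕ) (L : ℝ) (hL : 0 < L) (hnL : Real.log n ≤ L) (huv : u ≤ v) (hv : v ≤ n) :
    ((v : ℝ) - u - 4) / L ^ 2 ≤ logSum n v - logSum n u := by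
  unfold logSum
  have hsub : Icc 2 (min u (n - 2)) ⊆ Icc 2 (min v (n - 2)) := by
    apply Icc_subset_Icc le_rfl
    exact min_le_min_right _ huv
  rw [← sum_sdiff hsub, add_sub_cancel_right]
  have hcard : (v : ℝ) - u - 4 ≤ ((Icc 2 (min v (n - 2)) \ Icc 2 (min u (n - 2))).card : ℝ) := by
    rw [card_sdiff_of_subset hsub, Nat.card_Icc, Nat.card_Icc]
    have h1 : v ≤ (min v (n - 2) + 1 - 2 - (min u (n - 2) + 1 - 2)) + u + 4 := by omega
    have h2 : (v : ℝ) ≤ ((min v (n - 2) + 1 - 2 - (min u (n - 2) + 1 - 2) : ℕ) : ℝ) + u + 4 := by exact_mod_cast h1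
    linarith
  calc ((v : ℝ) - u - 4) / L ^ 2 ≤ ((Icc 2 (min v (n - 2)) \ Icc 2 (min u (n - 2))).card : ℝ) * (1 / L ^ 2) := by
        rw [mul_one_div]
        exact div_le_div_of_nonneg_right hcard (by positivity)
    _ = ∑ t ∈ Icc 2 (min v (n - 2)) \ Icc 2 (min u (n - 2)), 1 / L ^ 2 := by rw [sum_const, nsmul_eq_mul]
    _ ≤ _ := by
      apply sum_le_sum
      intro t ht
      rw [mem_sdiff, mem_Icc] at ht
      have ht1 : 2 ≤ t := ht.1.1
      have ht2 : t + 2 ≤ n := by
        have h3 := ht.1.2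
        have h4 : 2 ≤ min v (n - 2) := ht1.trans h3
        omega
      have k1 : 0 < Real.log t := Real.log_pos (by exact_mod_cast (by omega : 1 < t))
      have k2 : 0 < Real.log ((n - t : ℕ) : ℝ) := Real.log_pos (by exact_mod_cast (by omega : 1 < n - t))
      have k3 : Real.log t ≤ L := (Real.log_le_log (by exact_mod_cast (by omega : 0 < t))
        (by exact_mod_cast (by omega : t ≤ n))).trans hnL
      have k4 : Real.log ((n - t : ℕ) : ℝ) ≤ L := (Real.log_le_log (by exact_mod_cast (by omega : 0 < n - t))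
        (by exact_mod_cast (by omega : n - t ≤ n))).trans hnL
      apply one_div_le_one_div_of_le (by positivity)
      rw [sq]
      exact mul_le_mul k3 k4 k2.le hL.le

/-- one number `N` -/
lemma one_N (A B : ℕ) : ∃ m₀ : ℕ, ∀ m : ℕ, m₀ ≤ m → ∀ X N : ℕ, (m : ℝ) ^ 2 ≤ X → (X : ℝ) ≤ 14 * m ^ 2 → S N ≤ X → m < N →
    Pool.Agent.helper24_UT.Good7 (2 * A + 10) B X (S N) → Good A (4 * B) m N := by
  have hC := C₂_pos
  obtain ⟨m₁, h1⟩ := large A (4 * B) (max 14 (800 / C₂))
  refine ⟨max m₁ 2, fun m hm X N hX1 hX2 hSX hmN hg => ?_⟩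
  obtain ⟨hL, hQ, hll, hpow⟩ := h1 m ((le_max_left _ _).trans hm)
  have hm2 : 2 ≤ m := (le_max_right _ _).trans hm
  set L := Real.log m with hLdef
  have hL14 : 14 ≤ L := (le_max_left _ _).trans hL
  have hLC : 800 / C₂ ≤ L := (le_max_right _ _).trans hL
  have hm0 : (0 : ℝ) < m := by exact_mod_cast (by omega : 0 < m)
  have hm1 : (1 : ℝ) ≤ m := by exact_mod_cast (by omega : 1 ≤ m)
  have hX0 : (0 : ℝ) < X := lt_of_lt_of_le (by positivity) hX1
  have hlm : (14 : ℝ) ≤ m := by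
    have := Real.log_le_sub_one_of_pos hm0
    linarith
  have hmX : (m : ℝ) ≤ X := by nlinarith
  have hLX : L ≤ Real.log X := Real.log_le_log hm0 hmX
  have hLX3 : Real.log X ≤ 3 * L := by
    have h2 : (X : ℝ) ≤ (m : ℝ) ^ 3 := by nlinarith [sq_nonneg (m : ℝ)]
    calc Real.log X ≤ Real.log ((m : ℝ) ^ 3) := Real.log_le_log hX0 h2
      _ = 3 * L := by rw [Real.log_pow, hLdef]; norm_num
  set LX := Real.log X with hLXdef
  have hLp : 0 < L := by linarith
  have hLXp : 0 < LX := by linarith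
  have hlevel : (m : ℝ) ^ 2 * Real.exp (-((4 * B : ℕ) * Real.log L ^ 2)) ≤ X * Real.exp (-(B * Real.log LX ^ 2)) := by
    have h2 : Real.log LX ≤ 2 * Real.log L := by
      calc Real.log LX ≤ Real.log (3 * L) := Real.log_le_log hLXp hLX3
        _ = Real.log 3 + Real.log L := Real.log_mul (by norm_num) hLp.ne'
        _ ≤ 2 * Real.log L := by linarith
    have h3 : 0 ≤ Real.log LX := Real.log_nonneg (by linarith)
    have h4 : Real.log LX ^ 2 ≤ 4 * Real.log L ^ 2 := by nlinarith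
    have hB : (0 : ℝ) ≤ B := Nat.cast_nonneg _
    apply mul_le_mul hX1 _ (Real.exp_pos _).le hX0.le
    apply Real.exp_le_exp.2
    push_cast
    nlinarith
  have h2S : 2 ∣ S N := ⟨N ^ 2 + N + 1, by unfold S; ring⟩
  have hS2 : 2 ≤ S N := by unfold S; omega
  have hsing := Pool.Agent.helper24_UT.Gss.main (S N) hS2 h2S
  have hcommon : ∀ Q : ℕ, (Q : ℝ) ≤ m ^ 2 * Real.exp (-((4 * B : ℕ) * Real.log L ^ 2)) → ∀ y : ℕ → ℕ → ℕ, (∀ q r, y q r ≤ S N) →
      ∑ q ∈ Icc 1 Q, ∑ r ∈ residues (S N) q,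
        ((count (S N) q r (y q r) : ℝ) - sing (S N) / (residues (S N) q).card * logSum (S N) (y q r)) ^ 2 ≤
          (X : ℝ) ^ 2 / LX ^ (2 * A + 10) := by
    intro Q hQ y hy
    have h3 := hg Q (hQ.trans hlevel) y (fun q r => (hy q r).trans hSX)
    rw [hsing] at h3
    simp only [phi_eq] at h3
    exact h3
  -- the intervals
  have hQ1 : ((1 : ℕ) : ℝ) ≤ m ^ 2 * Real.exp (-((4 * B : ℕ) * Real.log L ^ 2)) := by
    rw [Nat.cast_one]
    refine hQ.trans ?_
    apply mul_le_mul_of_nonneg_right _ (Real.exp_pos _).le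
    nlinarith
  have hone : ∀ w : ℕ, w ≤ S N → |(count (S N) 1 0 w : ℝ) - sing (S N) * logSum (S N) w| ≤ X / LX ^ (A + 5) := by
    intro w hw
    have h3 := hcommon 1 hQ1 (fun _ _ => w) (fun _ _ => hw)
    have hres : residues (S N) 1 = {0} := by
      ext r
      unfold residues
      rw [mem_filter, mem_range, mem_singleton]
      constructor
      · rintro ⟨h4, _⟩
        omega
      · rintro rfl
        refine ⟨by omega, Nat.coprime_one_right 0, ?_⟩
        rw [Nat.cast_one, Int.gcd_one]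
    rw [Icc_self, sum_singleton, hres, sum_singleton, card_singleton, Nat.cast_one, div_one] at h3
    apply abs_le_of_sq_le_sq _ (by positivity)
    rw [div_pow, ← pow_mul]
    refine h3.trans (le_of_eq ?_)
    congr 2
    ring
  have hCs : C₂ ≤ sing (S N) := by
    obtain ⟨s1, _⟩ := Pool.Agent.TH894.SM.sing_tot (S N) (by omega) h2S
    have hφ : (0 : ℝ) < (S N).totient := by exact_mod_cast Nat.totient_pos.2 (by omega)
    have hφn : ((S N).totient : ℝ) ≤ S N := by exact_mod_cast Nat.totient_le _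
    have h3 : 1 ≤ (S N : ℝ) / (S N).totient := by rw [one_le_div hφ]; exact hφn
    nlinarith
  have hSm : (m : ℝ) ^ 2 ≤ S N := by
    have h3 : m ^ 2 ≤ S N := by
      have h4 : m ^ 2 ≤ N ^ 2 := Nat.pow_le_pow_left hmN.le 2
      unfold S
      omega
    exact_mod_cast h3
  have hint : ∀ u v : ℕ, v ≤ S N → (m : ℝ) ^ 2 ≤ ((v : ℝ) - u) * (2 * L ^ A) →
      ∃ p, u < p ∧ p ≤ v ∧ p.Prime ∧ (S N - p).Prime := by
    intro u v hv hlen
    have hLA : 0 < L ^ A := by positivity
    have huv0 : (0 : ℝ) < (v : ℝ) - u := by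
      by_contra hcon
      push Not at hcon
      have : ((v : ℝ) - u) * (2 * L ^ A) ≤ 0 := mul_nonpos_of_nonpos_of_nonneg hcon (by positivity)
      have : (0 : ℝ) < (m : ℝ) ^ 2 := by positivity
      linarith
    have huv : u ≤ v := by
      have : (u : ℝ) ≤ v := by linarith
      exact_mod_cast this
    by_contra hno
    push Not at hno
    have heq : count (S N) 1 0 v = count (S N) 1 0 u := by
      unfold count
      congr 1
      ext p
      simp only [mem_filter, mem_Icc]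
      constructor
      · rintro ⟨⟨h3, h4⟩, h5, h6, h7, h8⟩
        refine ⟨⟨h3, ?_⟩, h5, h6, h7, h8⟩
        by_contra h9
        push Not at h9
        exact hno p h9 h4 h6 h8
      · rintro ⟨⟨h3, h4⟩, h5⟩
        exact ⟨⟨h3, h4.trans huv⟩, h5⟩
    have h3 := hone v hv
    have h4 := hone u (huv.trans hv)
    rw [heq] at h3
    have h5 := logSum_diff (S N) u v LX hLXp (Real.log_le_log (by exact_mod_cast (by omega : 0 < S N))
      (by exact_mod_cast hSX)) huv hv
    rw [abs_le] at h3 h4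
    have h6 : sing (S N) * (logSum (S N) v - logSum (S N) u) ≤ 2 * (X / LX ^ (A + 5)) := by nlinarith [h3.1, h4.2]
    have hm2L : (m : ℝ) ^ 2 / (2 * L ^ A) ≤ (v : ℝ) - u := by
      rw [div_le_iff₀ (by positivity)]
      exact hlen
    have h8 : (8 : ℝ) ≤ (v : ℝ) - u := by
      by_contra hcon
      push Not at hcon
      -- compare with the error
      have h9 : (X : ℝ) / LX ^ (A + 5) ≤ 14 * m ^ 2 / LX ^ (A + 5) := div_le_div_of_nonneg_right hX2 (by positivity)
      -- `m ^ 2 ≤ 16 L ^ A` is impossible as `m ≥ exp (4 B ...)`; use the power of the logarithm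
      exact absurd hcon (by
        push Not
        refine le_trans ?_ hm2L
        rw [le_div_iff₀ (by positivity)]
        nlinarith)
    have h7 : C₂ * (((v : ℝ) - u) / 2 / LX ^ 2) ≤ sing (S N) * (logSum (S N) v - logSum (S N) u) := by
      apply mul_le_mul hCs _ (by positivity) (by linarith)
      refine le_trans ?_ h5
      apply div_le_div_of_nonneg_right _ (by positivity)
      linarith
    have h9 : C₂ * ((m : ℝ) ^ 2 / (2 * L ^ A) / 2 / LX ^ 2) ≤ 2 * (14 * m ^ 2 / LX ^ (A + 5)) := by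
      calc C₂ * ((m : ℝ) ^ 2 / (2 * L ^ A) / 2 / LX ^ 2) ≤ C₂ * (((v : ℝ) - u) / 2 / LX ^ 2) := by
            apply mul_le_mul_of_nonneg_left _ hC.le
            apply div_le_div_of_nonneg_right _ (by positivity)
            apply div_le_div_of_nonneg_right hm2L (by norm_num)
        _ ≤ 2 * (X / LX ^ (A + 5)) := h7.trans h6
        _ ≤ _ := by
          apply mul_le_mul_of_nonneg_left _ (by norm_num)
          exact div_le_div_of_nonneg_right hX2 (by positivity)
    have h10 : C₂ * (m : ℝ) ^ 2 * (LX ^ (A + 5)) ≤ 112 * m ^ 2 * (L ^ A * LX ^ 2) := by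
      have e1 : C₂ * ((m : ℝ) ^ 2 / (2 * L ^ A) / 2 / LX ^ 2) = C₂ * m ^ 2 / (4 * (L ^ A * LX ^ 2)) := by
        field_simp
        ring
      have e2 : 2 * (14 * (m : ℝ) ^ 2 / LX ^ (A + 5)) = 28 * m ^ 2 / LX ^ (A + 5) := by ring
      rw [e1, e2, div_le_div_iff₀ (by positivity) (by positivity)] at h9
      linarith
    have h11 : L ^ A * LX ^ 2 * LX ≤ LX ^ (A + 5) := by
      calc L ^ A * LX ^ 2 * LX ≤ LX ^ A * LX ^ 2 * LX := by
            apply mul_le_mul_of_nonneg_right _ hLXp.le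
            apply mul_le_mul_of_nonneg_right _ (by positivity)
            exact pow_le_pow_left₀ hLp.le hLX A
        _ = LX ^ (A + 3) := by ring
        _ ≤ _ := pow_le_pow_right₀ (by linarith) (by omega)
    have h12 : C₂ * LX ≤ 112 := by
      have h13 : C₂ * (m : ℝ) ^ 2 * (L ^ A * LX ^ 2 * LX) ≤ 112 * m ^ 2 * (L ^ A * LX ^ 2) := by
        refine le_trans ?_ h10
        exact mul_le_mul_of_nonneg_left h11 (by positivity)
      have h14 : (0 : ℝ) < m ^ 2 * (L ^ A * LX ^ 2) := by positivity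
      by_contra hcon
      push Not at hcon
      have h15 : 112 * (m ^ 2 * (L ^ A * LX ^ 2)) < C₂ * LX * (m ^ 2 * (L ^ A * LX ^ 2)) :=
        mul_lt_mul_of_pos_right hcon h14
      nlinarith
    have h16 : 800 ≤ C₂ * L := by
      rw [div_le_iff₀ hC] at hLC
      linarith
    nlinarith
  refine ⟨fun Q hQ' y hy => (hcommon Q hQ' y hy).trans ?_, fun u v hv hlen => hint u v hv ?_, ?_⟩
  · rw [div_le_div_iff₀ (by positivity) (by positivity)]
    calc (X : ℝ) ^ 2 * L ^ A ≤ (14 * m ^ 2) ^ 2 * L ^ A := by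
          apply mul_le_mul_of_nonneg_right _ (by positivity)
          exact pow_le_pow_left₀ hX0.le hX2 2
      _ = m ^ 4 * (196 * L ^ A) := by ring
      _ ≤ m ^ 4 * LX ^ (2 * A + 10) := by
        apply mul_le_mul_of_nonneg_left _ (by positivity)
        calc 196 * L ^ A ≤ L ^ 2 * L ^ A := by
              apply mul_le_mul_of_nonneg_right _ (by positivity)
              nlinarith
          _ = L ^ (A + 2) := by ring
          _ ≤ L ^ (2 * A + 10) := pow_le_pow_right₀ (by linarith) (by omega)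
          _ ≤ _ := pow_le_pow_left₀ hLp.le hLX _
  · refine hlen.trans ?_
    have h3 : (0 : ℝ) < L ^ A := by positivity
    have h4 : (0 : ℝ) < (v : ℝ) - u := by
      by_contra hcon
      push Not at hcon
      have : ((v : ℝ) - u) * L ^ A ≤ 0 := mul_nonpos_of_nonpos_of_nonneg hcon h3.le
      have : (0 : ℝ) < (m : ℝ) ^ 2 := by positivity
      linarith
    nlinarith
  · have hN3 : N ≤ 3 * m := by
      by_contra hcon
      push Not at hcon
      have h3 : (S N : ℝ) ≤ 14 * m ^ 2 := by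
        have : (S N : ℝ) ≤ X := by exact_mod_cast hSX
        linarith
      have h4 : S N ≤ 14 * m ^ 2 := by exact_mod_cast h3
      have h5 : (3 * m) ^ 2 ≤ N ^ 2 := Nat.pow_le_pow_left hcon.le 2
      have h6 : (3 * m) ^ 2 = 9 * m ^ 2 := by ring
      unfold S at h4
      have h7 : 0 < m ^ 2 := by positivity
      omega
    have hLA : 0 < L ^ A := by positivity
    have hLA1 : 1 ≤ L ^ A := one_le_pow₀ (by linarith)
    set K := ⌊(m : ℝ) ^ 2 / L ^ A⌋₊ with hK
    have hK1 : (K : ℝ) ≤ m ^ 2 / L ^ A := Nat.floor_le (by positivity)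
    have hK2 : (m : ℝ) ^ 2 / L ^ A < K + 1 := Nat.lt_floor_add_one _
    have hKm : K ≤ m ^ 2 := by
      have : (K : ℝ) ≤ m ^ 2 := hK1.trans (div_le_self (by positivity) hLA1)
      exact_mod_cast this
    have hbig : 100 * (m : ℝ) ≤ m ^ 2 / L ^ A := by
      rw [le_div_iff₀ hLA]
      nlinarith
    have hN3' : (N : ℝ) ≤ 3 * m := by exact_mod_cast hN3
    obtain ⟨p, hp1, hp2, hp3, hp4⟩ := hint (N ^ 2 + N) (N ^ 2 + K) (by
      have h4 : m ^ 2 ≤ N ^ 2 := Nat.pow_le_pow_left hmN.le 2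
      unfold S
      omega) (by
      push_cast
      have h3 : (m : ℝ) ^ 2 / L ^ A * (1 / 2) ≤ (N : ℝ) ^ 2 + K - ((N : ℝ) ^ 2 + N) := by linarith
      calc (m : ℝ) ^ 2 = (m : ℝ) ^ 2 / L ^ A * (1 / 2) * (2 * L ^ A) := by field_simp
        _ ≤ _ := mul_le_mul_of_nonneg_right h3 (by positivity))
    obtain ⟨k, hk⟩ : ∃ k, p = N ^ 2 + k + 1 := ⟨p - N ^ 2 - 1, by omega⟩
    refine ⟨k, ?_, ?_, ?_⟩
    · have : (k : ℝ) ≤ K := by exact_mod_cast (by omega : k ≤ K)
      exact this.trans hK1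
    · rw [← hk]
      exact hp3
    · have e : S N - p = (N + 1) ^ 2 - k := by
        have e1 : (N + 1) ^ 2 = N ^ 2 + 2 * N + 1 := by ring
        rw [e1, hk]
        unfold S
        omega
      rw [← e]
      exact hp4

open Classical in
/-- **Prime pairs with the sum `2 N² + 2 N + 2` for almost all `N` in short intervals**, `m < N ≤ m + y`, `√m ≤ y ≤ m`. -/
theorem result (A : ℕ) : ∃ B m₀ : ℕ, ∀ m : ℕ, m₀ ≤ m → ∀ y : ℕ, m ≤ y ^ 2 → y ≤ m →
    (((Ioc m (m + y)).filter (fun N => ¬ Good A B m N)).card : ℝ) ≤ y / (Real.log m) ^ A := by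
  obtain ⟨B, X₀, h⟩ := Pool.Agent.helper24_UT.Ch.t_R32 3 (2 * A + 10) (by norm_num)
  obtain ⟨m₁, h1⟩ := one_N A B
  obtain ⟨m₂, h2⟩ := large 0 0 1
  refine ⟨4 * B, max (max m₁ m₂) (max X₀ (10 ^ 12)), fun m hm y hy1 hy2 => ?_⟩
  have hm1 : m₁ ≤ m := (le_max_left _ _).trans ((le_max_left _ _).trans hm)
  have hm2 : m₂ ≤ m := (le_max_right _ _).trans ((le_max_left _ _).trans hm)
  have hmX : X₀ ≤ m := (le_max_left _ _).trans ((le_max_right _ _).trans hm)
  have hm12 : 10 ^ 12 ≤ m := (le_max_right _ _).trans ((le_max_right _ _).trans hm)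
  obtain ⟨hL1, _, _, _⟩ := h2 m hm2
  have hm0 : (0 : ℝ) < m := by exact_mod_cast (by omega : 0 < m)
  have hy0 : 0 < y := by
    by_contra hcon
    have : y = 0 := by omega
    rw [this] at hy1
    omega
  have hS1 : S (m + y) ≤ 14 * m ^ 2 := by
    unfold S
    have h3 : (m + y) ^ 2 ≤ (2 * m) ^ 2 := Nat.pow_le_pow_left (by omega) 2
    have h4 : (2 * m) ^ 2 = 4 * m ^ 2 := by ring
    have h5 : 10 ^ 12 * m ≤ m ^ 2 := by rw [sq]; exact Nat.mul_le_mul_right _ hm12
    omega
  have hS2 : m ^ 2 ≤ S (m + y) := by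
    unfold S
    have h3 : m ^ 2 ≤ (m + y) ^ 2 := Nat.pow_le_pow_left (by omega) 2
    omega
  have hmS : m ≤ S (m + y) := by
    have h5 : 1 * m ≤ m ^ 2 := by rw [sq]; exact Nat.mul_le_mul_right _ (by omega)
    omega
  have hlen : ((S (m + y) : ℕ) : ℝ) ^ (1 / 3 + 1 / (3 : ℕ) : ℝ) ≤ (y : ℝ) * (m + y) := by
    have e1 : (1 / 3 + 1 / ((3 : ℕ) : ℝ) : ℝ) = 2 / 3 := by norm_num
    rw [e1]
    have h3 : ((S (m + y) : ℕ) : ℝ) ≤ 14 * m ^ 2 := by exact_mod_cast hS1
    have hsy : Real.sqrt m ≤ y := by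
      rw [Real.sqrt_le_left (by positivity)]
      exact_mod_cast hy1
    have h4 : (14 * (m : ℝ) ^ 2) ^ (2 / 3 : ℝ) ≤ Real.sqrt m * m := by
      have h6 : (14 * (m : ℝ) ^ 2) ^ (2 / 3 : ℝ) = ((14 * (m : ℝ) ^ 2) ^ 2) ^ (1 / 3 : ℝ) := by
        rw [← Real.rpow_natCast (14 * (m : ℝ) ^ 2) 2, ← Real.rpow_mul (by positivity)]
        norm_num
      have h7 : Real.sqrt m * m = ((Real.sqrt m * m) ^ 3) ^ (1 / 3 : ℝ) := by
        rw [← Real.rpow_natCast (Real.sqrt m * m) 3, ← Real.rpow_mul (by positivity)]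
        norm_num
      rw [h6, h7]
      apply Real.rpow_le_rpow (by positivity) _ (by norm_num)
      have h8 : Real.sqrt m ^ 2 = m := Real.sq_sqrt hm0.le
      have h9 : (10 ^ 6 : ℝ) ≤ Real.sqrt m := by
        apply Real.le_sqrt_of_sq_le
        have : ((10 ^ 12 : ℕ) : ℝ) ≤ m := by exact_mod_cast hm12
        push_cast at this
        norm_num
        norm_num at this
        linarith
      calc (14 * (m : ℝ) ^ 2) ^ 2 = 196 * m ^ 4 := by ring
        _ ≤ Real.sqrt m * m ^ 4 := mul_le_mul_of_nonneg_right (by linarith) (by positivity)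
        _ = Real.sqrt m * (Real.sqrt m ^ 2) * m ^ 3 := by rw [h8]; ring
        _ = (Real.sqrt m * m) ^ 3 := by ring
    calc ((S (m + y) : ℕ) : ℝ) ^ (2 / 3 : ℝ) ≤ (14 * (m : ℝ) ^ 2) ^ (2 / 3 : ℝ) :=
          Real.rpow_le_rpow (Nat.cast_nonneg _) h3 (by norm_num)
      _ ≤ Real.sqrt m * m := h4
      _ ≤ (y : ℝ) * (m + y) := mul_le_mul hsy (by linarith [(Nat.cast_nonneg y : (0 : ℝ) ≤ y)]) hm0.le (Nat.cast_nonneg _)
  have hy3 : 2 ≤ y := by
    by_contra hcon
    have : y = 1 := by omega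
    rw [this] at hy1
    omega
  have key := h (S (m + y)) (hmX.trans hmS) m y hy3 hy1 hlen le_rfl
  have hLS : Real.log m ≤ Real.log (S (m + y) : ℕ) := Real.log_le_log hm0 (by exact_mod_cast hmS)
  refine le_trans ?_ (key.trans ?_)
  · refine Nat.cast_le.2 (card_le_card fun N hN => ?_)
    have hN := mem_filter.1 hN
    refine mem_filter.2 ⟨hN.1, fun hg => hN.2 ?_⟩
    have hN1 := mem_Ioc.1 hN.1
    refine h1 m hm1 (S (m + y)) N (by exact_mod_cast hS2) (by exact_mod_cast hS1) ?_ hN1.1 hg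
    have h3 : N ^ 2 ≤ (m + y) ^ 2 := Nat.pow_le_pow_left hN1.2 2
    unfold S
    omega
  · apply div_le_div_of_nonneg_left (Nat.cast_nonneg _) (by positivity)
    calc Real.log m ^ A ≤ Real.log m ^ (2 * A + 10) := pow_le_pow_right₀ hL1 (by omega)
      _ ≤ _ := pow_le_pow_left₀ (by linarith) hLS _

end Pool.Agent.Results.MP_e94e4b_nt.AlmostAllInShortIntervals
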